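import Pool.Agent.helper74.GN.Defs

/-!
# GNU project, module GN7d: the `B`-block of order `w ^ 3`
-/

namespace Pool.Agent.helper74.GN

namespace BlockWB

/-- Assembly of the block. -/
theorem blockWB_of {B w : ℕ} (hB : B.Prime) (hw : w.Prime)
    (h7a : ∀ (H H' : Type) [Group H] [Group H'], Nat.card H = w ^ 3 →
      Nat.card H' = w ^ 3 → (∃ x y : H, x * y ≠ y * x) → (∃ x y : H', x * y ≠ y * x) →
      ∀ (b : MulAut H) (b' : MulAut H'), b ^ B = 1 → b ≠ 1 → b' ^ B = 1 → b' ≠ 1 →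
      ∃ (u : (ZMod B)ˣ) (e : H ≃* H'), ∀ x, e (b x) = (b' ^ (u : ZMod B).val) (e x))
    (h7b : ∃ (A : Type) (_ : Group A) (β : MulAut A),
      Nat.card A = w ^ 3 ∧ (∃ x y : A, x * y ≠ y * x) ∧ β ^ B = 1 ∧ β ≠ 1 ∧
      (∃ e : A ≃* A, ∀ x, e (β⁻¹ x) = β (e x)) ∧
      ∀ u : (ZMod B)ˣ, (∃ (e : A ≃* A) (a : A), ∀ x,
        e ((β ^ (u : ZMod B).val) x) = a * β (e x) * a⁻¹) → u = 1 ∨ u = -1)
    (h7c : ∃ (A : Type) (_ : CommGroup A) (β : MulAut A),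
      Nat.card A = w ^ 3 ∧ β ^ B = 1 ∧ β ≠ 1 ∧
      (∃ e : A ≃* A, ∀ x, e (β⁻¹ x) = β (e x)) ∧
      (∀ u : (ZMod B)ˣ, (∃ (e : A ≃* A), ∀ x,
        e ((β ^ (u : ZMod B).val) x) = β (e x)) → u = 1 ∨ u = -1) ∧
      ∀ (H : Type) [Group H], Nat.card H = w ^ 3 → (∀ x y : H, x * y = y * x) →
        ∀ b : MulAut H, b ^ B = 1 → b ≠ 1 →
        ∃ (u : (ZMod B)ˣ) (e : H ≃* A), ∀ x, e (b x) = (β ^ (u : ZMod B).val) (e x)) :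
    ∃ (A : Fin 2 → Type) (_ : ∀ i, Group (A i))
    (β : ∀ i, MulAut (A i)), (∀ i, Nat.card (A i) = w ^ 3) ∧ (∀ i, β i ^ B = 1) ∧
    (∀ i, β i ≠ 1) ∧
    (∀ (H : Type) [Group H], Nat.card H = w ^ 3 → ∀ b : MulAut H, b ^ B = 1 → b ≠ 1 →
      ∃ (i : Fin 2) (u : (ZMod B)ˣ) (e : H ≃* A i), ∀ x,
        e (b x) = (β i ^ (u : ZMod B).val) (e x)) ∧
    (∀ i, ∃ e : A i ≃* A i, ∀ x, e ((β i)⁻¹ x) = β i (e x)) ∧
    (∀ (i j : Fin 2) (u : (ZMod B)ˣ), (∃ (e : A i ≃* A j) (a : A j), ∀ x,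
      e ((β i ^ (u : ZMod B).val) x) = a * β j (e x) * a⁻¹) → i = j ∧ (u = 1 ∨ u = -1)) := by
  obtain ⟨A₁, gA₁, β₁, hA₁, ⟨x₁, y₁, hxy₁⟩, hβ₁, hβ₁1, he₁, hi₁⟩ := h7b
  obtain ⟨A₀, gA₀, β₀, hA₀, hβ₀, hβ₀1, he₀, hi₀, hc₀⟩ := h7c
  let F : Fin 2 → Σ (A : Type), Σ (_ : Group A), MulAut A :=
    Fin.cons ⟨A₀, gA₀.toGroup, β₀⟩ (fun _ => ⟨A₁, gA₁, β₁⟩)
  refine ⟨fun i => (F i).1, fun i => (F i).2.1, fun i => (F i).2.2, ?_, ?_, ?_, ?_, ?_, ?_⟩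
  · exact Fin.forall_fin_two.2 ⟨hA₀, hA₁⟩
  · exact Fin.forall_fin_two.2 ⟨hβ₀, hβ₁⟩
  · exact Fin.forall_fin_two.2 ⟨hβ₀1, hβ₁1⟩
  · intro H gH hH b hb hb1
    by_cases hc : ∀ x y : H, x * y = y * x
    · obtain ⟨u, e, he⟩ := hc₀ H hH hc b hb hb1
      exact ⟨0, u, e, he⟩
    · push Not at hc
      obtain ⟨u, e, he⟩ := h7a H A₁ hH hA₁ hc ⟨x₁, y₁, hxy₁⟩ b β₁ hb hb1 hβ₁ hβ₁1
      exact ⟨1, u, e, he⟩
  · exact Fin.forall_fin_two.2 ⟨he₀, he₁⟩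
  · intro i j u hu
    fin_cases i <;> fin_cases j
    · refine ⟨rfl, ?_⟩
      obtain ⟨e, a, ha⟩ := hu
      refine hi₀ u ⟨e, fun x => (ha x).trans ?_⟩
      have h5 : ∀ y z : A₀, y * z * y⁻¹ = z := fun y z => by
        rw [mul_comm y z, mul_inv_cancel_right]
      exact h5 _ _
    · exfalso
      obtain ⟨e, a, ha⟩ := hu
      apply hxy₁
      have h5 : ∀ y z : A₀, y * z = z * y := fun y z => mul_comm y z
      have h6 : A₀ ≃* A₁ := e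
      have h7 := congrArg h6 (h5 (h6.symm x₁) (h6.symm y₁))
      simpa using h7
    · exfalso
      obtain ⟨e, a, ha⟩ := hu
      apply hxy₁
      have h5 : ∀ y z : A₀, y * z = z * y := fun y z => mul_comm y z
      have h6 : A₁ ≃* A₀ := e
      apply h6.injective
      rw [map_mul, map_mul]
      exact h5 _ _
    · exact ⟨rfl, hi₁ u hu⟩

end BlockWB

end Pool.Agent.helper74.GN
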