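import Pool.Agent.helper40.GN.MenuW

/-!
# GNU project, module GN2b: the nonabelian group of order `7 * D`
-/

namespace Pool.Agent.helper74.GN

open MenuW

namespace Frob

theorem sc_pow {n : ℕ} (u : (ZMod n)ˣ) (k : ℕ) (x : Multiplicative (ZMod n)) :
    ((sc u : MulAut (Multiplicative (ZMod n))) ^ k) x =
      Multiplicative.ofAdd (((u ^ k : (ZMod n)ˣ) : ZMod n) * Multiplicative.toAdd x) := by
  induction k generalizing x with
  | zero => simp
  | succ k ih =>
    rw [pow_succ', MulAut.mul_apply, ih]
    show Multiplicative.ofAdd ((u : ZMod n) *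
      (((u ^ k : (ZMod n)ˣ) : ZMod n) * Multiplicative.toAdd x)) = _
    rw [pow_succ', Units.val_mul, mul_assoc]

theorem sc_pow_eq_one {n r : ℕ} (u : (ZMod n)ˣ) (hu : u ^ r = 1) :
    (sc u : MulAut (Multiplicative (ZMod n))) ^ r = 1 := by
  refine MulEquiv.ext fun x => ?_
  rw [sc_pow, hu]
  simp

/-- The structure of a nonabelian group of order `7 * D`. -/
theorem exists_gen {D : ℕ} (hD : D.Prime) (h7 : D % 7 = 1) (u : (ZMod D)ˣ) (hu : orderOf u = 7)
    (F' : Type) [Group F'] (hF' : Nat.card F' = 7 * D) (hnc : ∃ x y : F', x * y ≠ y * x) :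
    ∃ a l : F', orderOf a = D ∧ l ^ 7 = 1 ∧ l * a * l⁻¹ = a ^ (u : ZMod D).val := by
  have hDf := Fact.mk hD
  have h7f : Fact (Nat.Prime 7) := ⟨by norm_num⟩
  have hD7 : 7 < D := by
    have := hD.two_le
    omega
  have hfin : Finite F' := Nat.finite_of_card_ne_zero (by
    rw [hF']; exact mul_ne_zero (by norm_num) hD.ne_zero)
  obtain ⟨a, ha⟩ := exists_prime_orderOf_dvd_card' (G := F') D (by rw [hF']; exact dvd_mul_left _ _)
  obtain ⟨l, hl⟩ := exists_prime_orderOf_dvd_card' (G := F') 7 (by rw [hF']; exact dvd_mul_right _ _)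
  have hP : Nat.card (Subgroup.zpowers a) = D := by rw [Nat.card_zpowers, ha]
  have hidx : (Subgroup.zpowers a).index = 7 := by
    have h1 := Subgroup.card_mul_index (Subgroup.zpowers a)
    rw [hP, hF', mul_comm 7 D] at h1
    exact Nat.eq_of_mul_eq_mul_left hD.pos h1
  have hmin : (7 * D).minFac = 7 := by
    have hne : 7 * D ≠ 1 := by omega
    have hp := Nat.minFac_prime hne
    have hle : (7 * D).minFac ≤ 7 := Nat.minFac_le_of_dvd (by norm_num) (dvd_mul_right _ _)
    rcases (Nat.Prime.dvd_mul hp).1 (Nat.minFac_dvd _) with h | h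
    · exact (Nat.prime_dvd_prime_iff_eq hp (by norm_num)).1 h
    · have := (Nat.prime_dvd_prime_iff_eq hp hD).1 h
      omega
  have hnorm : (Subgroup.zpowers a).Normal :=
    Subgroup.normal_of_index_eq_minFac_card (by rw [hidx, hF', hmin])
  have hpowa : ∀ (g : F'), ∃ s : ℕ, g * a * g⁻¹ = a ^ s := by
    intro g
    have h1 := hnorm.conj_mem a (Subgroup.mem_zpowers a) g
    obtain ⟨s, hs⟩ := (mem_powers_iff_mem_zpowers (x := a)).2 h1
    exact ⟨s, hs.symm⟩
  obtain ⟨s, hs⟩ := hpowa l
  have hconj : ∀ (g : F') (t : ℕ), g * a * g⁻¹ = a ^ t → ∀ k : ℕ,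
      g ^ k * a * (g ^ k)⁻¹ = a ^ (t ^ k) := by
    intro g t ht k
    induction k with
    | zero => simp
    | succ k ih =>
      have h2 : g ^ (k + 1) * a * (g ^ (k + 1))⁻¹ = g * (g ^ k * a * (g ^ k)⁻¹) * g⁻¹ := by
        rw [pow_succ']; group
      rw [h2, ih, ← conj_pow, ht, ← pow_mul, pow_succ', mul_comm]
  have hs7 : (s : ZMod D) ^ 7 = 1 := by
    have h1 := hconj l s hs 7
    have hl7 : l ^ 7 = 1 := by rw [← hl, pow_orderOf_eq_one]
    rw [hl7, one_mul, inv_one, mul_one] at h1
    have h2 : a ^ 1 = a ^ (s ^ 7) := by rw [pow_one]; exact h1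
    rw [pow_eq_pow_iff_modEq, ha] at h2
    have h3 := (ZMod.natCast_eq_natCast_iff _ _ _).2 h2
    push_cast at h3
    exact h3.symm
  have hs1 : (s : ZMod D) ≠ 1 := by
    intro h1
    -- then `a` is central and the group is commutative
    have h2 : a ^ s = a ^ 1 := by
      rw [pow_eq_pow_iff_modEq, ha]
      exact (ZMod.natCast_eq_natCast_iff _ _ _).1 (by push_cast; exact h1)
    rw [h2, pow_one] at hs
    have hla : l * a = a * l := by
      calc l * a = (l * a * l⁻¹) * l := by group
        _ = a * l := by rw [hs]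
    have hcen : Subgroup.centralizer {a} = (⊤ : Subgroup F') := by
      apply Subgroup.eq_top_of_card_eq
      apply Nat.dvd_antisymm (Subgroup.card_subgroup_dvd_card _)
      rw [hF']
      have hac : a ∈ Subgroup.centralizer ({a} : Set F') := by
        rw [Subgroup.mem_centralizer_singleton_iff]
      have hlc : l ∈ Subgroup.centralizer ({a} : Set F') := by
        rw [Subgroup.mem_centralizer_singleton_iff]
        exact hla
      have hd1 : D ∣ Nat.card (Subgroup.centralizer ({a} : Set F')) := by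
        have := orderOf_dvd_natCard (⟨a, hac⟩ : Subgroup.centralizer ({a} : Set F'))
        rwa [Subgroup.orderOf_mk, ha] at this
      have hd2 : 7 ∣ Nat.card (Subgroup.centralizer ({a} : Set F')) := by
        have := orderOf_dvd_natCard (⟨l, hlc⟩ : Subgroup.centralizer ({a} : Set F'))
        rwa [Subgroup.orderOf_mk, hl] at this
      exact Nat.Coprime.mul_dvd_of_dvd_of_dvd
        ((Nat.coprime_primes (by norm_num) hD).2 (by omega)) hd2 hd1
    have hcent : Subgroup.zpowers a ≤ Subgroup.center F' := by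
      rw [Subgroup.zpowers_le, Subgroup.mem_center_iff]
      intro g
      have hg : g ∈ Subgroup.centralizer ({a} : Set F') := by rw [hcen]; exact Subgroup.mem_top g
      rw [Subgroup.mem_centralizer_singleton_iff] at hg
      exact hg
    obtain ⟨x, y, hxy⟩ := hnc
    have hcq : Nat.card (F' ⧸ Subgroup.zpowers a) = 7 := hidx
    have hcyc : IsCyclic (F' ⧸ Subgroup.zpowers a) := isCyclic_of_prime_card hcq
    have hcomm : IsMulCommutative F' :=
      MonoidHom.isMulCommutative_of_isCyclic_of_ker_le_center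
        (QuotientGroup.mk' (Subgroup.zpowers a)) (by rw [QuotientGroup.ker_mk']; exact hcent)
    exact hxy (hcomm.is_comm.comm x y)
  -- `s` is a primitive root
  have hprim : IsPrimitiveRoot (s : ZMod D) 7 := by
    have h1 : orderOf (s : ZMod D) = 7 := orderOf_eq_prime hs7 hs1
    rw [← h1]
    exact IsPrimitiveRoot.orderOf _
  have hu7 : (u : ZMod D) ^ 7 = 1 := by
    rw [← Units.val_pow_eq_pow_val, ← hu, pow_orderOf_eq_one, Units.val_one]
  obtain ⟨i, hi, hiu⟩ := hprim.eq_pow_of_pow_eq_one hu7
  refine ⟨a, l ^ i, ha, ?_, ?_⟩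
  · rw [← pow_mul, mul_comm, pow_mul, ← hl, pow_orderOf_eq_one, one_pow]
  · rw [hconj l s hs i, pow_eq_pow_iff_modEq, ha]
    apply (ZMod.natCast_eq_natCast_iff _ _ _).1
    rw [ZMod.natCast_val, ZMod.cast_id', id]
    push_cast
    exact hiu

end Frob

/-- GN2b -/
theorem frob {D : ℕ} (hD : D.Prime) (h7 : D % 7 = 1) :
    ∃ (F : Type) (_ : Group F), Nat.card F = 7 * D ∧ (∃ x y : F, x * y ≠ y * x) ∧
      ∀ (F' : Type) [Group F'], Nat.card F' = 7 * D → (∃ x y : F', x * y ≠ y * x) →
        Nonempty (F' ≃* F) := by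
  have hDf := Fact.mk hD
  have hD1 : Fact (1 < D) := ⟨hD.one_lt⟩
  have h7f : Fact (Nat.Prime 7) := ⟨by norm_num⟩
  obtain ⟨u, hu⟩ := exists_prime_orderOf_dvd_card' (G := (ZMod D)ˣ) 7 (by
    rw [Nat.card_eq_fintype_card, ZMod.card_units_eq_totient, Nat.totient_prime hD]
    have := hD.two_le
    omega)
  have hu7 : u ^ 7 = 1 := by rw [← hu, pow_orderOf_eq_one]
  have hscu := Frob.sc_pow_eq_one u hu7
  let φ : Multiplicative (ZMod 7) →* MulAut (Multiplicative (ZMod D)) :=
    powHom (sc u : MulAut (Multiplicative (ZMod D))) hscu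
  have hcard : Nat.card (Multiplicative (ZMod D) ⋊[φ] Multiplicative (ZMod 7)) = 7 * D := by
    rw [SemidirectProduct.card]
    rw [Nat.card_congr (Multiplicative.toAdd : Multiplicative (ZMod D) ≃ ZMod D),
      Nat.card_congr (Multiplicative.toAdd : Multiplicative (ZMod 7) ≃ ZMod 7),
      Nat.card_zmod, Nat.card_zmod, mul_comm]
  have hu1 : (u : ZMod D) ≠ 1 := by
    intro h1
    have h2 : u = 1 := Units.ext h1
    rw [h2, orderOf_one] at hu
    omega
  refine ⟨Multiplicative (ZMod D) ⋊[φ] Multiplicative (ZMod 7), inferInstance, hcard, ?_, ?_⟩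
  · refine ⟨SemidirectProduct.inr (Multiplicative.ofAdd 1),
      SemidirectProduct.inl (Multiplicative.ofAdd 1), fun h => ?_⟩
    have h1 := congrArg SemidirectProduct.left h
    simp only [SemidirectProduct.mul_left, SemidirectProduct.left_inr,
      SemidirectProduct.right_inr, SemidirectProduct.left_inl, SemidirectProduct.right_inl,
      one_mul, map_one, mul_one] at h1
    have h2 : φ (Multiplicative.ofAdd 1) (Multiplicative.ofAdd 1) =
        Multiplicative.ofAdd (u : ZMod D) := by
      show ((sc u : MulAut (Multiplicative (ZMod D))) ^ (1 : ZMod 7).val) _ = _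
      rw [Frob.sc_pow]
      have h3 : (1 : ZMod 7).val = 1 := rfl
      rw [h3, pow_one, toAdd_ofAdd, mul_one]
    rw [h2] at h1
    exact hu1 (Multiplicative.ofAdd.injective h1)
  · intro F' _ hF' hnc
    have hfin : Finite F' := Nat.finite_of_card_ne_zero (by
      rw [hF']; exact mul_ne_zero (by norm_num) hD.ne_zero)
    obtain ⟨a, l, ha, hl, hla⟩ := Frob.exists_gen hD h7 u hu F' hF' hnc
    have haD : a ^ D = 1 := by rw [← ha, pow_orderOf_eq_one]
    have hconj : ∀ k : ℕ, l ^ k * a * (l ^ k)⁻¹ = a ^ ((u ^ k : (ZMod D)ˣ) : ZMod D).val := by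
      intro k
      induction k with
      | zero =>
        rw [pow_zero, pow_zero, Units.val_one, pow_val_one]
        group
      | succ k ih =>
        have h2 : l ^ (k + 1) * a * (l ^ (k + 1))⁻¹ = l * (l ^ k * a * (l ^ k)⁻¹) * l⁻¹ := by
          rw [pow_succ']; group
        rw [h2, ih, ← conj_pow, hla, pow_succ', Units.val_mul, pow_val_mul _ haD]
    let f₁ : Multiplicative (ZMod D) →* F' := powHom a haD
    let f₂ : Multiplicative (ZMod 7) →* F' := powHom l hl
    let f : Multiplicative (ZMod D) ⋊[φ] Multiplicative (ZMod 7) →* F' :=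
      SemidirectProduct.lift f₁ f₂ (by
        intro g
        refine MonoidHom.ext fun x => ?_
        show a ^ (Multiplicative.toAdd (((sc u : MulAut (Multiplicative (ZMod D))) ^
          (Multiplicative.toAdd g).val) x)).val =
          l ^ (Multiplicative.toAdd g).val * a ^ (Multiplicative.toAdd x).val *
            (l ^ (Multiplicative.toAdd g).val)⁻¹
        rw [← conj_pow, hconj, Frob.sc_pow, toAdd_ofAdd, pow_val_mul _ haD])
    have hinj : Function.Injective f := by
      rw [injective_iff_map_eq_one]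
      intro x hx
      have hx1 : a ^ (Multiplicative.toAdd x.left).val * l ^ (Multiplicative.toAdd x.right).val =
        1 := hx
      have hcomm : l ^ (Multiplicative.toAdd x.right).val * a *
          (l ^ (Multiplicative.toAdd x.right).val)⁻¹ = a := by
        have h1 : l ^ (Multiplicative.toAdd x.right).val =
            (a ^ (Multiplicative.toAdd x.left).val)⁻¹ := eq_inv_of_mul_eq_one_right hx1
        rw [h1]
        group
      rw [hconj] at hcomm
      have h2 : ((u ^ (Multiplicative.toAdd x.right).val : (ZMod D)ˣ) : ZMod D) = 1 := by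
        have h3 : a ^ ((u ^ (Multiplicative.toAdd x.right).val : (ZMod D)ˣ) : ZMod D).val =
          a ^ 1 := by rw [pow_one]; exact hcomm
        rw [pow_eq_pow_iff_modEq, ha] at h3
        have h4 := (ZMod.natCast_eq_natCast_iff _ _ _).2 h3
        rwa [ZMod.natCast_val, ZMod.cast_id', id, Nat.cast_one] at h4
      have h3 : u ^ (Multiplicative.toAdd x.right).val = 1 := Units.ext h2
      have h4 : (Multiplicative.toAdd x.right).val = 0 := by
        have h5 := orderOf_dvd_of_pow_eq_one h3
        rw [hu] at h5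
        exact Nat.eq_zero_of_dvd_of_lt h5 (ZMod.val_lt _)
      have h5 : Multiplicative.toAdd x.right = 0 := (ZMod.val_eq_zero _).1 h4
      rw [h4, pow_zero, mul_one] at hx1
      have h6 : (Multiplicative.toAdd x.left).val = 0 := by
        have h7 := orderOf_dvd_of_pow_eq_one hx1
        rw [ha] at h7
        exact Nat.eq_zero_of_dvd_of_lt h7 (ZMod.val_lt _)
      have h7 : Multiplicative.toAdd x.left = 0 := (ZMod.val_eq_zero _).1 h6
      exact SemidirectProduct.ext h7 h5
    have hbij : Function.Bijective f := by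
      have hfin2 : Finite (Multiplicative (ZMod D) ⋊[φ] Multiplicative (ZMod 7)) :=
        Nat.finite_of_card_ne_zero (by
          rw [hcard]; exact mul_ne_zero (by norm_num) hD.ne_zero)
      exact (Nat.bijective_iff_injective_and_card f).2 ⟨hinj, by rw [hcard, hF']⟩
    exact ⟨(MulEquiv.ofBijective f hbij).symm⟩

end Pool.Agent.helper74.GN
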