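import Pool.Agent.helper40.GN.MenuW
import Pool.Agent.helper12.GN.GN0
import Pool.Agent.helper12.GN.GN7e
import Pool.Agent.helper12.GN.GN7f
import Pool.Agent.helper22.GN.GN5a
import Pool.Agent.helper63.GN.GN7d

/-!
# GNU project, module GN8: the menu of order `w ^ 3`
-/

namespace Pool.Agent.helper74.GN

theorem menuW {B C D w : ℕ} (h : HypQ B C D) (hw : HypW B C D w) :
    ∃ M : Menu B C D (w ^ 3), IsW M := by
  have h3B : 3 < B := by have := h.B7; omega
  have h3D : 3 < D := by have := h.D7; omega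
  refine MenuW.menuW_of h hw (p3 hw.pw ?_) ?_ (blockWB h.pB hw.pw h3B hw.wB)
    (blockWD h.pD hw.pw h3D hw.wD) ?_
  · have := h.B7
    have := hw.Bw
    omega
  · intro H _ hH c hc
    exact aut_trivial hw.pw h.pC (ne_of_lt hw.Cw) hw.wC H hH c hc
  · intro H _ hH b d hb hd hbd
    exact exclW h hw H hH b d hb hd hbd

end Pool.Agent.helper74.GN
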