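import Pool.Agent.helper74.GN.Shape

/-!
# GNU project, module GN8: the menu of order `w ^ 3`
-/

set_option linter.unusedVariables false

namespace Pool.Agent.helper74.GN

namespace MenuW

/-- The homomorphism from `ZMod n` given by an element of order dividing `n`. -/
def powHom {M : Type} [Group M] {n : ℕ} [NeZero n] (g : M) (hg : g ^ n = 1) :
    Multiplicative (ZMod n) →* M where
  toFun x := g ^ (Multiplicative.toAdd x).val
  map_one' := by simp
  map_mul' x y := by
    rw [toAdd_mul, ZMod.val_add, ← pow_add]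
    exact (pow_eq_pow_mod _ hg).symm

theorem powHom_apply {M : Type} [Group M] {n : ℕ} [NeZero n] (g : M) (hg : g ^ n = 1)
    (x : Multiplicative (ZMod n)) : powHom g hg x = g ^ (Multiplicative.toAdd x).val := rfl

theorem pow_val_mul {M : Type} [Group M] {n : ℕ} [NeZero n] (g : M) (hg : g ^ n = 1)
    (a b : ZMod n) : g ^ (a * b).val = (g ^ a.val) ^ b.val := by
  rw [ZMod.val_mul, ← pow_mul]
  exact (pow_eq_pow_mod _ hg).symm

theorem pow_val_one {M : Type} [Group M] {n : ℕ} [Fact (1 < n)] (g : M) :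
    g ^ (1 : ZMod n).val = g := by
  rw [ZMod.val_one, pow_one]

theorem pow_val_natCast {M : Type} [Group M] {n : ℕ} [NeZero n] (g : M) (hg : g ^ n = 1)
    (k : ℕ) : g ^ (k : ZMod n).val = g ^ k := by
  rw [ZMod.val_natCast]
  exact (pow_eq_pow_mod _ hg).symm

theorem pow_val_neg_one {M : Type} [Group M] {n : ℕ} [NeZero n] (g : M) (hg : g ^ n = 1) :
    g ^ (-1 : ZMod n).val = g⁻¹ := by
  have h1 : g ^ ((-1 : ZMod n) + 1).val = 1 := by simp
  rw [ZMod.val_add, ← pow_eq_pow_mod _ hg, pow_add] at h1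
  have h2 : g ^ (1 : ZMod n).val = g := by
    have := pow_val_natCast g hg 1
    simpa using this
  rw [h2] at h1
  exact eq_inv_of_mul_eq_one_left h1

/-- Intertwining powers. -/
theorem inter_pow {A A' : Type} [Group A] [Group A'] (e : A ≃* A') (f : MulAut A)
    (g : MulAut A') (h : ∀ x, e (f x) = g (e x)) (k : ℕ) (x : A) :
    e ((f ^ k) x) = (g ^ k) (e x) := by
  induction k generalizing x with
  | zero => simp
  | succ k ih => rw [pow_succ, pow_succ, MulAut.mul_apply, MulAut.mul_apply, ih, h]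

/-- An automorphism of order prime to the order of the group which is inner is trivial. -/
theorem inner_trivial {A : Type} [Group A] {m r : ℕ} (hA : Nat.card A = m)
    (hc : Nat.Coprime r m) (g : MulAut A) (hg : g ^ r = 1) (a : A)
    (h : ∀ x, x = a * g x * a⁻¹) : g = 1 := by
  have h1 : g = MulAut.conj a⁻¹ := by
    refine MulEquiv.ext fun x => ?_
    rw [MulAut.conj_apply]
    conv_rhs => rw [h x]
    group
  have h2 : g ^ m = 1 := by
    rw [h1, ← map_pow, inv_pow, ← hA, pow_card_eq_one', inv_one, map_one]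
  have h3 : orderOf g ∣ r.gcd m := Nat.dvd_gcd (orderOf_dvd_of_pow_eq_one hg)
    (orderOf_dvd_of_pow_eq_one h2)
  rw [hc.gcd_eq_one] at h3
  exact orderOf_eq_one_iff.1 (Nat.dvd_one.1 h3)

theorem inner_trivial' {A A' : Type} [Group A] [Group A'] {m r : ℕ} (hA : Nat.card A = m)
    (hc : Nat.Coprime r m) (e : A ≃* A') (g : MulAut A) (hg : g ^ r = 1) (a : A')
    (h : ∀ x, e (g x) = a * (e x) * a⁻¹) : g = 1 := by
  have h1 : ∀ x, x = (e.symm a⁻¹) * g x * (e.symm a⁻¹)⁻¹ := by
    intro x
    apply e.injective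
    simp only [map_mul, map_inv, MulEquiv.apply_symm_apply, h]
    group
  exact inner_trivial hA hc g hg _ h1

/-- Bundled `Q`-group. -/
structure Blk (B C D : ℕ) where
  A : Type
  gr : Group A
  φ : Q B C D →* MulAut A

attribute [instance] Blk.gr


theorem ofAdd_decomp {n : ℕ} [NeZero n] (x : Multiplicative (ZMod n)) :
    x = (Multiplicative.ofAdd (1 : ZMod n)) ^ (Multiplicative.toAdd x).val := by
  apply Multiplicative.toAdd.injective
  rw [toAdd_pow, toAdd_ofAdd, nsmul_eq_mul, mul_one, ZMod.natCast_val, ZMod.cast_id', id]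

theorem hom_decomp {B C D : ℕ} [NeZero B] [NeZero C] [NeZero D] {M : Type} [Group M]
    (ψ : Q B C D →* M) (q : Q B C D) :
    ψ q = ψ (Multiplicative.ofAdd 1, 1, 1) ^ (Multiplicative.toAdd q.1).val *
      (ψ (1, Multiplicative.ofAdd 1, 1) ^ (Multiplicative.toAdd q.2.1).val *
      ψ (1, 1, Multiplicative.ofAdd 1) ^ (Multiplicative.toAdd q.2.2).val) := by
  rw [← map_pow, ← map_pow, ← map_pow, ← map_mul, ← map_mul]
  congr 1
  simp only [Prod.pow_mk, one_pow, Prod.mk_mul_mk, one_mul, mul_one]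
  rw [← ofAdd_decomp, ← ofAdd_decomp, ← ofAdd_decomp]

theorem gen_pow {n : ℕ} : (Multiplicative.ofAdd (1 : ZMod n)) ^ n = 1 := by
  apply Multiplicative.toAdd.injective
  rw [toAdd_pow, toAdd_ofAdd, nsmul_eq_mul, mul_one, ZMod.natCast_self, toAdd_one]

/-- cube roots of unity -/
theorem cube_cases {D w : ℕ} (hD : D.Prime) (hwD : (w : ZMod D) ^ 2 + (w : ZMod D) + 1 = 0)
    (u : (ZMod D)ˣ) (hu : u ^ 3 = 1) :
    (u : ZMod D) = 1 ∨ (u : ZMod D) = w ∨ (u : ZMod D) = (w : ZMod D) * w := by
  have := Fact.mk hD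
  have h1 : (u : ZMod D) ^ 3 = 1 := by
    rw [← Units.val_pow_eq_pow_val, hu, Units.val_one]
  have h2 : ((u : ZMod D) - 1) * (((u : ZMod D) - w) * ((u : ZMod D) - (w : ZMod D) * w)) = 0 := by
    have h3 : (w : ZMod D) * w = -1 - w := by linear_combination hwD
    rw [h3]
    linear_combination h1 + (1 - (u : ZMod D)) * hwD
  rcases mul_eq_zero.1 h2 with h | h
  · left; exact sub_eq_zero.1 h
  · rcases mul_eq_zero.1 h with h | h
    · right; left; exact sub_eq_zero.1 h
    · right; right; exact sub_eq_zero.1 h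


/-- The blocks. -/
def blk {B C D : ℕ} [NeZero B] [NeZero D] (G : Fin 5 → Type) (gG : ∀ i, Group (G i))
    (A : Fin 2 → Type) (gA : ∀ i, Group (A i)) (β : ∀ i, MulAut (A i)) (hβ : ∀ i, β i ^ B = 1)
    (A' : Type) (gA' : Group A') (δ : MulAut A') (hδ : δ ^ D = 1) :
    Fin 5 ⊕ Fin 2 ⊕ Unit → Blk B C D :=
  Sum.elim (fun i => ⟨G i, gG i, 1⟩) (Sum.elim
    (fun i => ⟨A i, gA i, (powHom (β i) (hβ i)).comp (MonoidHom.fst _ _)⟩)
    (fun _ => ⟨A', gA', (powHom δ hδ).comp ((MonoidHom.snd _ _).comp (MonoidHom.snd _ _))⟩))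

/-- The menu from the blocks. -/
theorem menuW_of {B C D w : ℕ} (h : HypQ B C D) (hw : HypW B C D w)
    (hp3 : Classified (w ^ 3) (Fin 5))
    (haut : ∀ (H : Type) [Group H], Nat.card H = w ^ 3 → ∀ c : MulAut H, c ^ C = 1 → c = 1)
    (hWB : ∃ (A : Fin 2 → Type) (_ : ∀ i, Group (A i))
      (β : ∀ i, MulAut (A i)), (∀ i, Nat.card (A i) = w ^ 3) ∧ (∀ i, β i ^ B = 1) ∧
      (∀ i, β i ≠ 1) ∧
      (∀ (H : Type) [Group H], Nat.card H = w ^ 3 → ∀ b : MulAut H, b ^ B = 1 → b ≠ 1 →
        ∃ (i : Fin 2) (u : (ZMod B)ˣ) (e : H ≃* A i), ∀ x,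
          e (b x) = (β i ^ (u : ZMod B).val) (e x)) ∧
      (∀ i, ∃ e : A i ≃* A i, ∀ x, e ((β i)⁻¹ x) = β i (e x)) ∧
      (∀ (i j : Fin 2) (u : (ZMod B)ˣ), (∃ (e : A i ≃* A j) (a : A j), ∀ x,
        e ((β i ^ (u : ZMod B).val) x) = a * β j (e x) * a⁻¹) → i = j ∧ (u = 1 ∨ u = -1)))
    (hWD : ∃ (A : Type) (_ : CommGroup A)
      (δ : MulAut A), Nat.card A = w ^ 3 ∧ δ ^ D = 1 ∧ δ ≠ 1 ∧
      (∀ (H : Type) [Group H], Nat.card H = w ^ 3 → ∀ d : MulAut H, d ^ D = 1 → d ≠ 1 →
        ∃ (u : (ZMod D)ˣ) (e : H ≃* A), ∀ x, e (d x) = (δ ^ (u : ZMod D).val) (e x)) ∧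
      (∃ e : A ≃* A, ∀ x, e ((δ ^ w) x) = δ (e x)) ∧
      (∀ u : (ZMod D)ˣ, (∃ e : A ≃* A, ∀ x, e ((δ ^ (u : ZMod D).val) x) = δ (e x)) →
        u ^ 3 = 1))
    (hex : ∀ (H : Type) [Group H], Nat.card H = w ^ 3 → ∀ (b d : MulAut H), b ^ B = 1 →
      d ^ D = 1 → Commute b d → b = 1 ∨ d = 1) :
    ∃ M : Menu B C D (w ^ 3), IsW M := by
  have hB := Fact.mk h.pB
  have hC := Fact.mk h.pC
  have hD := Fact.mk h.pD
  have hB1 : Fact (1 < B) := ⟨h.pB.one_lt⟩
  have hD1 : Fact (1 < D) := ⟨h.pD.one_lt⟩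
  have hcB : Nat.Coprime B (w ^ 3) :=
    ((Nat.coprime_primes h.pB hw.pw).2 (ne_of_lt hw.Bw)).pow_right 3
  have hcD : Nat.Coprime D (w ^ 3) :=
    ((Nat.coprime_primes h.pD hw.pw).2 (ne_of_lt hw.Dw)).pow_right 3
  obtain ⟨G, gG, hG1, hG2, hG3⟩ := hp3
  obtain ⟨A, gA, β, hA, hβ, hβ1, hAc, hAe, hAi⟩ := hWB
  obtain ⟨A', gA', δ, hA', hδ, hδ1, hAc', ⟨eδ, heδ⟩, hAi'⟩ := hWD
  have key : ∀ {A₀ : Type} [Group A₀] (γ : MulAut A₀) (x : A₀), γ x = γ x := fun _ _ => rfl
  let F : Fin 5 ⊕ Fin 2 ⊕ Unit → Blk B C D :=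
    blk G gG A gA β hβ A' gA'.toGroup δ hδ
  let M : Menu B C D (w ^ 3) :=
    { τ := Fin 5 ⊕ Fin 2 ⊕ Unit
      ft := inferInstance
      A := fun t => (F t).A
      gr := fun t => (F t).gr
      card := by
        rintro (i | i | i)
        · exact hG1 i
        · exact hA i
        · exact hA'
      φ := fun t => (F t).φ
      S := Sum.elim (fun _ => ⊤) (Sum.elim (fun _ => SB B C D) (fun _ => SD B C D))
      stab := by
        rintro (i | i | i) θ hθ
        · exact ⟨MulEquiv.refl _, fun q x => rfl⟩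
        · rcases (hθ : θ.1 = 1 ∨ θ.1 = -1) with h1 | h1
          · refine ⟨MulEquiv.refl _, fun q x => ?_⟩
            show (β i ^ (((θ.1 : (ZMod B)ˣ) : ZMod B) * Multiplicative.toAdd q.1).val) x =
              (β i ^ (Multiplicative.toAdd q.1).val) x
            rw [h1, Units.val_one, one_mul]
          · obtain ⟨e, he⟩ := hAe i
            refine ⟨e, fun q x => ?_⟩
            show e ((β i ^ (((θ.1 : (ZMod B)ˣ) : ZMod B) * Multiplicative.toAdd q.1).val) x) =
              (β i ^ (Multiplicative.toAdd q.1).val) (e x)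
            rw [pow_val_mul _ (hβ i), h1, Units.val_neg, Units.val_one,
              pow_val_neg_one _ (hβ i)]
            exact inter_pow e _ _ he _ x
        · have h3 : θ.2.2 ^ 3 = 1 := hθ
          rcases cube_cases h.pD hw.wD θ.2.2 h3 with h1 | h1 | h1
          · refine ⟨MulEquiv.refl _, fun q x => ?_⟩
            show (δ ^ (((θ.2.2 : (ZMod D)ˣ) : ZMod D) * Multiplicative.toAdd q.2.2).val) x =
              (δ ^ (Multiplicative.toAdd q.2.2).val) x
            rw [h1, one_mul]
          · refine ⟨eδ, fun q x => ?_⟩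
            show eδ ((δ ^ (((θ.2.2 : (ZMod D)ˣ) : ZMod D) * Multiplicative.toAdd q.2.2).val) x) =
              (δ ^ (Multiplicative.toAdd q.2.2).val) (eδ x)
            rw [pow_val_mul _ hδ, h1, pow_val_natCast _ hδ]
            exact inter_pow eδ _ _ heδ _ x
          · refine ⟨eδ.trans eδ, fun q x => ?_⟩
            show eδ (eδ ((δ ^ (((θ.2.2 : (ZMod D)ˣ) : ZMod D) *
              Multiplicative.toAdd q.2.2).val) x)) =
              (δ ^ (Multiplicative.toAdd q.2.2).val) (eδ (eδ x))
            have hδw : (δ ^ w) ^ D = 1 := by rw [← pow_mul, mul_comm, pow_mul, hδ, one_pow]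
            rw [pow_val_mul _ hδ, h1, pow_val_mul _ hδ, pow_val_natCast _ hδ,
              pow_val_natCast _ hδw]
            have h4 : ∀ x, eδ (eδ (((δ ^ w) ^ w) x)) = δ (eδ (eδ x)) := by
              intro x
              rw [inter_pow eδ _ _ heδ w x, heδ]
            exact inter_pow (eδ.trans eδ) _ _ h4 _ x
      complete := by
        intro H gH hH ψ
        have hb : ψ (Multiplicative.ofAdd 1, 1, 1) ^ B = 1 := by
          rw [← map_pow, Prod.pow_mk, Prod.pow_mk, gen_pow, one_pow, one_pow]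
          exact map_one ψ
        have hc : ψ (1, Multiplicative.ofAdd 1, 1) ^ C = 1 := by
          rw [← map_pow, Prod.pow_mk, Prod.pow_mk, gen_pow, one_pow, one_pow]
          exact map_one ψ
        have hd : ψ (1, 1, Multiplicative.ofAdd 1) ^ D = 1 := by
          rw [← map_pow, Prod.pow_mk, Prod.pow_mk, gen_pow, one_pow, one_pow]
          exact map_one ψ
        have hc1 := haut H hH _ hc
        have hbd : Commute (ψ (Multiplicative.ofAdd 1, 1, 1)) (ψ (1, 1, Multiplicative.ofAdd 1)) :=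
          (Commute.all _ _).map ψ
        have hψ : ∀ q, ψ q = ψ (Multiplicative.ofAdd 1, 1, 1) ^ (Multiplicative.toAdd q.1).val *
            ψ (1, 1, Multiplicative.ofAdd 1) ^ (Multiplicative.toAdd q.2.2).val := by
          intro q
          rw [hom_decomp ψ q, hc1, one_pow, one_mul]
        by_cases hb1 : ψ (Multiplicative.ofAdd 1, 1, 1) = 1
        · by_cases hd1 : ψ (1, 1, Multiplicative.ofAdd 1) = 1
          · obtain ⟨i, ⟨e⟩⟩ := hG3 H hH
            refine ⟨.inl i, 1, e, fun q x => ?_⟩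
            rw [hψ q, hb1, hd1, one_pow, one_pow, one_mul]
            rfl
          · obtain ⟨u, e, he⟩ := hAc' H hH _ hd hd1
            refine ⟨.inr (.inr ()), (1, 1, u), e, fun q x => ?_⟩
            rw [hψ q, hb1, one_pow, one_mul]
            show e ((ψ (1, 1, Multiplicative.ofAdd 1) ^ (Multiplicative.toAdd q.2.2).val) x) =
              (δ ^ (((u : (ZMod D)ˣ) : ZMod D) * Multiplicative.toAdd q.2.2).val) (e x)
            rw [pow_val_mul _ hδ]
            exact inter_pow e _ _ he _ x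
        · have hd1 : ψ (1, 1, Multiplicative.ofAdd 1) = 1 := (hex H hH _ _ hb hd hbd).resolve_left hb1
          obtain ⟨i, u, e, he⟩ := hAc H hH _ hb hb1
          refine ⟨.inr (.inl i), (u, 1, 1), e, fun q x => ?_⟩
          rw [hψ q, hd1, one_pow, mul_one]
          show e ((ψ (Multiplicative.ofAdd 1, 1, 1) ^ (Multiplicative.toAdd q.1).val) x) =
            (β i ^ (((u : (ZMod B)ˣ) : ZMod B) * Multiplicative.toAdd q.1).val) (e x)
          rw [pow_val_mul _ (hβ i)]
          exact inter_pow e _ _ he _ x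
      inj := by
        rintro t t' θ ⟨e, he⟩
        have hφB : ∀ (i : Fin 2) (q : Q B C D), (F (.inr (.inl i))).φ q =
            β i ^ (Multiplicative.toAdd q.1).val := fun _ _ => rfl
        have hφD : ∀ (i : Unit) (q : Q B C D), (F (.inr (.inr i))).φ q =
            δ ^ (Multiplicative.toAdd q.2.2).val := fun _ _ => rfl
        have hφT : ∀ (i : Fin 5) (q : Q B C D), (F (.inl i)).φ q = 1 := fun _ _ => rfl
        -- the special elements
        have huB : ∀ (u : (ZMod B)ˣ), ((u : ZMod B) * ((u⁻¹ : (ZMod B)ˣ) : ZMod B)) = 1 :=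
          fun u => Units.mul_inv u
        have huD : ∀ (u : (ZMod D)ˣ), ((u : ZMod D) * ((u⁻¹ : (ZMod D)ˣ) : ZMod D)) = 1 :=
          fun u => Units.mul_inv u
        have contraB : ∀ (i : Fin 2) (t : Fin 5 ⊕ Fin 2 ⊕ Unit) (e : A i ≃* (F t).A) (a : (F t).A),
            ¬ (∀ x, e (β i x) = a * e x * a⁻¹) := fun i t e a hx =>
          hβ1 i (inner_trivial' (hA i) hcB e (β i) (hβ i) a hx)
        have contraD : ∀ (t : Fin 5 ⊕ Fin 2 ⊕ Unit) (e : A' ≃* (F t).A) (a : (F t).A),
            ¬ (∀ x, e (δ x) = a * e x * a⁻¹) := fun t e a hx =>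
          hδ1 (inner_trivial' hA' hcD e δ hδ a hx)
        have contraB' : ∀ (i : Fin 2) (t : Fin 5 ⊕ Fin 2 ⊕ Unit) (e : (F t).A ≃* A i) (a : A i),
            ¬ (∀ x, e x = a * β i (e x) * a⁻¹) := fun i t e a hx =>
          hβ1 i (inner_trivial (hA i) hcB (β i) (hβ i) a (fun y => by
            have := hx (e.symm y)
            rwa [MulEquiv.apply_symm_apply] at this))
        have contraD' : ∀ (t : Fin 5 ⊕ Fin 2 ⊕ Unit) (e : (F t).A ≃* A') (a : A'),
            ¬ (∀ x, e x = a * δ (e x) * a⁻¹) := fun t e a hx =>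
          hδ1 (inner_trivial hA' hcD δ hδ a (fun y => by
            have := hx (e.symm y)
            rwa [MulEquiv.apply_symm_apply] at this))
        have qB : ∀ (i : Fin 2), (F (.inr (.inl i))).φ
            (tw θ (Multiplicative.ofAdd ((θ.1⁻¹ : (ZMod B)ˣ) : ZMod B), 1, 1)) = β i := by
          intro i
          rw [hφB]
          show β i ^ ((θ.1 : ZMod B) * ((θ.1⁻¹ : (ZMod B)ˣ) : ZMod B)).val = β i
          rw [huB, pow_val_one]
        have qD : ∀ (i : Unit), (F (.inr (.inr i))).φ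
            (tw θ (1, 1, Multiplicative.ofAdd ((θ.2.2⁻¹ : (ZMod D)ˣ) : ZMod D))) = δ := by
          intro i
          rw [hφD]
          show δ ^ ((θ.2.2 : ZMod D) * ((θ.2.2⁻¹ : (ZMod D)ˣ) : ZMod D)).val = δ
          rw [huD, pow_val_one]
        rcases t with i | i | i
        · rcases t' with j | j | j
          · exact ⟨congrArg Sum.inl (hG2 i j ⟨e⟩), Subgroup.mem_top θ⟩
          · exfalso
            obtain ⟨a, ha⟩ := he (Multiplicative.ofAdd 1, 1, 1)
            refine contraB' j (.inl i) e a fun x => ?_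
            have h1 := ha x
            rw [hφT, hφB] at h1
            rw [show β j = β j ^ (1 : ZMod B).val from (pow_val_one _).symm]
            exact h1
          · exfalso
            obtain ⟨a, ha⟩ := he (1, 1, Multiplicative.ofAdd 1)
            refine contraD' (.inl i) e a fun x => ?_
            have h1 := ha x
            rw [hφT, hφD] at h1
            rw [show δ = δ ^ (1 : ZMod D).val from (pow_val_one _).symm]
            exact h1
        · rcases t' with j | j | j
          · exfalso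
            obtain ⟨a, ha⟩ := he (Multiplicative.ofAdd ((θ.1⁻¹ : (ZMod B)ˣ) : ZMod B), 1, 1)
            refine contraB i (.inl j) e a fun x => ?_
            have h1 := ha x
            rw [qB i, hφT] at h1
            exact h1
          · obtain ⟨a, ha⟩ := he (Multiplicative.ofAdd 1, 1, 1)
            have h2 := hAi i j θ.1 ⟨e, a, fun x => by
              have h1 := ha x
              rw [hφB, hφB] at h1
              have h3 : β i ^ (θ.1 : ZMod B).val =
                β i ^ (((θ.1 : (ZMod B)ˣ) : ZMod B) * (1 : ZMod B)).val := by rw [mul_one]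
              have h4 : β j = β j ^ (1 : ZMod B).val := (pow_val_one _).symm
              rw [h3]
              conv_rhs => rw [h4]
              exact h1⟩
            exact ⟨congrArg (fun z => Sum.inr (Sum.inl z)) h2.1, h2.2⟩
          · exfalso
            obtain ⟨a, ha⟩ := he (Multiplicative.ofAdd ((θ.1⁻¹ : (ZMod B)ˣ) : ZMod B), 1, 1)
            refine contraB i (.inr (.inr j)) e a fun x => ?_
            have h1 := ha x
            have h5 : (F (.inr (.inr j))).φ
                (Multiplicative.ofAdd ((θ.1⁻¹ : (ZMod B)ˣ) : ZMod B), 1, 1) = 1 := by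
              rw [hφD]
              show δ ^ (0 : ZMod D).val = 1
              rw [ZMod.val_zero, pow_zero]
            rw [qB i, h5] at h1
            exact h1
        · rcases t' with j | j | j
          · exfalso
            obtain ⟨a, ha⟩ := he (1, 1, Multiplicative.ofAdd ((θ.2.2⁻¹ : (ZMod D)ˣ) : ZMod D))
            refine contraD (.inl j) e a fun x => ?_
            have h1 := ha x
            rw [qD i, hφT] at h1
            exact h1
          · exfalso
            obtain ⟨a, ha⟩ := he (1, 1, Multiplicative.ofAdd ((θ.2.2⁻¹ : (ZMod D)ˣ) : ZMod D))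
            refine contraD (.inr (.inl j)) e a fun x => ?_
            have h1 := ha x
            have h5 : (F (.inr (.inl j))).φ
                (1, 1, Multiplicative.ofAdd ((θ.2.2⁻¹ : (ZMod D)ˣ) : ZMod D)) = 1 := by
              rw [hφB]
              show β j ^ (0 : ZMod B).val = 1
              rw [ZMod.val_zero, pow_zero]
            rw [qD i, h5] at h1
            exact h1
          · obtain ⟨a, ha⟩ := he (1, 1, Multiplicative.ofAdd 1)
            have h2 := hAi' θ.2.2 ⟨e, fun x => by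
              have h1 := ha x
              rw [hφD, hφD] at h1
              have h3 : δ ^ (θ.2.2 : ZMod D).val =
                δ ^ (((θ.2.2 : (ZMod D)ˣ) : ZMod D) * (1 : ZMod D)).val := by rw [mul_one]
              have h4 : δ = δ ^ (1 : ZMod D).val := (pow_val_one _).symm
              rw [h3]
              have h5 : ∀ y z : A', y * z * y⁻¹ = z := fun y z => by
                rw [mul_comm y z, mul_inv_cancel_right]
              have h6 : ∀ y z : (F (.inr (.inr j))).A, y * z * y⁻¹ = z := h5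
              have h7 := h1.trans (h6 _ _)
              conv_rhs => rw [h4]
              exact h7⟩
            exact ⟨rfl, h2⟩ }
  refine ⟨M, Equiv.refl _, fun i => ⟨rfl, fun z => rfl⟩, fun i => ⟨rfl, fun z => ?_⟩,
    fun i => ⟨rfl, fun hz => hδ1 ?_⟩⟩
  · show β i ^ (0 : ZMod B).val = 1
    rw [ZMod.val_zero, pow_zero]
  · have h1 := hz (Multiplicative.ofAdd 1)
    have h2 : δ ^ (1 : ZMod D).val = 1 := h1
    rwa [pow_val_one] at h2

end MenuW

end Pool.Agent.helper74.GN
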